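import Mathlib
import Pool.Agent.Results.MP_65fbb9_lc.Coincidence

/-!
# `B(≠*, 2^(2^n)) = B(∼₀)`

Main idea for `B(∼₀) ⊆ B(≠*, 2^(2^n))`. Let `Y ≤_T A` and suppose that every function `y ≤_T A` with
`y n < 2^(2^n)` agrees infinitely often with some computable function. Apply this to
`m ↦ Y ↾ 2^m`: there is a computable `x₀` such that `M = {m : x₀ m = Y ↾ 2^m}` is infinite. Apply it
again to `m ↦ (some element of M above 2^(2^m)) mod 2^(2^m)`: there is a computable `x₁` such that for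
infinitely many `m` some `d ∈ M`, `d ≥ 2^(2^m)`, is congruent to `x₁ m` modulo `2^(2^m)`.
Let `D m` be the set of all `d ≥ 2^(2^m)` with `d ≡ x₁ m` modulo `2^(2^m)`, so that `D m` has at most
`n / 2^(2^m)` elements up to `n`. Hence one can assign to the numbers `d` pairwise disjoint
intervals `I d` (of exponents) below `d` such that `I d` has length at least `m` for all `m` with
`d ∈ D m`. Let the computable set `S` be the complement of the string `x₀ d` on the
positions whose binary logarithm lies in `I d`. For infinitely many `m` there is `d ∈ D m ∩ M`, and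
then `S` disagrees with `Y` on all of `[2^a, 2^b)`, where `b ≤ d` and `b - a ≥ m`. So the lower
density of the agreement of `S` and `Y` is `0`.
-/

set_option autoImplicit false

namespace Pool.Agent.Results.MP_738f0f_lc.Equality

/-! ### Definitions used in the statement -/

open Classical in
/-- The oracle `A`: its characteristic function. -/
noncomputable def orc (A : Set ℕ) : ℕ →. ℕ := fun n => Part.some (if n ∈ A then 1 else 0)

/-- The number of positions below `n` at which `S` and `Y` agree. -/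
def agree (S Y : ℕ → Bool) (n : ℕ) : ℕ := ((Finset.range n).filter fun i => S i = Y i).card

/-- The lower density of the set of the positions at which `S` and `Y` agree. -/
noncomputable def lowerDens (S Y : ℕ → Bool) : ℝ :=
  Filter.liminf (fun n : ℕ => (agree S Y n : ℝ) / n) Filter.atTop

/-- The class `B(∼_p)`: the oracles `A` which compute a set `Y` such that, for every computable
set `S`, the set of positions where `S` and `Y` agree has lower density greater than `p`. -/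
def BSim (p : ℝ) : Set (Set ℕ) :=
  {A | ∃ Y : ℕ → Bool, ComputableIn {orc A} Y ∧
    ∀ S : ℕ → Bool, Computable S → p < lowerDens S Y}

/-- The class `B(≠*, h)`: the oracles `A` which compute a function `y` with `y n < h n` for all `n`
such that, for every computable function `x`, `x n ≠ y n` for all but finitely many `n`. -/
def BNeq (h : ℕ → ℕ) : Set (Set ℕ) :=
  {A | ∃ y : ℕ → ℕ, ComputableIn {orc A} y ∧ (∀ n, y n < h n) ∧
    ∀ x : ℕ → ℕ, Computable x → ∀ᶠ n in Filter.atTop, x n ≠ y n}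

open Pool.Agent.Results.MP_65fbb9_lc.Coincidence (ci_comp ci_pair ci_comp₂ ci_compC ci_fst ci_snd
  computable_of_ci ball ball_iff nsum nsum_eq ball_comp nsum_comp cand cor cnot ceqN clt cle cadd
  csub cmul cdiv cmod cconst ccond cpw cpair cunl cunr ind cind ind_true ind_false nsum_ind lgb
  lgb_eq clgb bt bsum bsum_lt bt_lt bt_bsum cbt liminf_le_zero dd dd_comm dd_tri cw good ccw cdd
  search exists_codes)

/-! ### Relative search -/

theorem ci_search {O : Set (ℕ →. ℕ)} {q : ℕ → ℕ → Bool} (hq : ComputableIn₂ O q)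
    (H : ∀ a, ∃ n, q a n = true) : ∃ F : ℕ → ℕ, ComputableIn O F ∧ ∀ a, q a (F a) = true := by
  classical
  have h1 : ComputableIn O fun n : ℕ => 1 - ind (q (Nat.unpair n).1 (Nat.unpair n).2) := by
    refine csub (cconst 1) (cind ?_)
    exact ci_comp (f := fun p : ℕ × ℕ => q p.1 p.2) hq
      (ci_pair (cunl (f := fun n : ℕ => n) ComputableIn.id)
        (cunr (f := fun n : ℕ => n) ComputableIn.id))
  have h2 : Nat.RecursiveIn O
      (fun n : ℕ => (Part.some (1 - ind (q (Nat.unpair n).1 (Nat.unpair n).2)) : Part ℕ)) :=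
    RecursiveIn.iff_nat.1 h1
  have h3 := Nat.RecursiveIn.rfind h2
  refine ⟨fun a => Nat.find (H a), RecursiveIn.iff_nat.2 (h3.of_eq fun k => ?_),
    fun a => Nat.find_spec (H a)⟩
  refine Part.eq_some_iff.2 (Nat.mem_rfind.2 ⟨?_, ?_⟩)
  · have h4 := Nat.find_spec (H k)
    simp [h4, ind]
  · intro m hm
    have h4 := Nat.find_min (H k) hm
    simp only [Bool.not_eq_true] at h4
    simp [h4, ind]

/-! ### The lengths of the intervals -/

/-- the length of the interval of exponents assigned to `d` -/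
def len (x : ℕ → ℕ) (d : ℕ) : ℕ :=
  nsum (d + 1) fun m => ind (decide (2 ^ (2 ^ m) ≤ d) && decide (d % 2 ^ (2 ^ m) = x m)) * m

/-- the left end of the interval of exponents assigned to `d` -/
def pos (x : ℕ → ℕ) (d : ℕ) : ℕ := nsum d (len x)

theorem pos_succ (x : ℕ → ℕ) (d : ℕ) : pos x (d + 1) = pos x d + len x d := rfl

theorem pos_mono (x : ℕ → ℕ) : Monotone (pos x) :=
  monotone_nat_of_le_succ fun d => by rw [pos_succ]; omega

theorem count_le (v Q n : ℕ) (hQ : 0 < Q) :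
    ((Finset.range (n + 1)).filter fun d => Q ≤ d ∧ d % Q = v).card ≤ n / Q := by
  have h1 : ((Finset.range (n + 1)).filter fun d => Q ≤ d ∧ d % Q = v).card
      ≤ (Finset.Icc 1 (n / Q)).card := by
    apply Finset.card_le_card_of_injOn (fun d => d / Q)
    · intro d hd
      rw [Finset.mem_coe, Finset.mem_filter, Finset.mem_range] at hd
      rw [Finset.mem_coe, Finset.mem_Icc]
      constructor
      · exact (Nat.one_le_div_iff hQ).2 hd.2.1
      · exact Nat.div_le_div_right (by omega)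
    · intro d hd e he hde
      rw [Finset.mem_coe, Finset.mem_filter] at hd he
      have h2 := Nat.div_add_mod d Q
      have h3 := Nat.div_add_mod e Q
      have h4 : d / Q = e / Q := hde
      rw [h4, hd.2.2] at h2
      rw [he.2.2] at h3
      omega
  rwa [Nat.card_Icc, Nat.add_sub_cancel] at h1

theorem half_sum (n N : ℕ) : ∑ m ∈ Finset.range N, n / 2 ^ (m + 1) + n / 2 ^ N ≤ n := by
  induction N with
  | zero => simp
  | succ N ih =>
    rw [Finset.sum_range_succ]
    have h1 : n / 2 ^ (N + 1) + n / 2 ^ (N + 1) ≤ n / 2 ^ N := by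
      rw [pow_succ, ← Nat.div_div_eq_div_mul]
      omega
    omega

theorem mul_div_le (n m : ℕ) : n / 2 ^ (2 ^ m) * m ≤ n / 2 ^ m := by
  rw [Nat.le_div_iff_mul_le (by positivity)]
  have h1 : m * 2 ^ m ≤ 2 ^ (2 ^ m) := by
    have h2 : m * 2 ^ m ≤ 2 ^ m * 2 ^ m ∨ m * 2 ^ m ≤ 2 ^ (2 ^ m) := Or.inl
      (Nat.mul_le_mul_right _ Nat.lt_two_pow_self.le)
    rcases m with - | m
    · simp
    · have h3 : m + 1 ≤ 2 ^ m := Nat.lt_two_pow_self
      have h4 : (m + 1) * 2 ^ (m + 1) ≤ 2 ^ m * 2 ^ (m + 1) := Nat.mul_le_mul_right _ h3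
      have h5 : m + (m + 1) ≤ 2 ^ (m + 1) := by rw [pow_succ]; omega
      calc (m + 1) * 2 ^ (m + 1) ≤ 2 ^ m * 2 ^ (m + 1) := h4
        _ = 2 ^ (m + (m + 1)) := by rw [← pow_add]
        _ ≤ 2 ^ (2 ^ (m + 1)) := Nat.pow_le_pow_right (by norm_num) h5
  calc n / 2 ^ (2 ^ m) * m * 2 ^ m = n / 2 ^ (2 ^ m) * (m * 2 ^ m) := by ring
    _ ≤ n / 2 ^ (2 ^ m) * 2 ^ (2 ^ m) := Nat.mul_le_mul_left _ h1
    _ ≤ n := Nat.div_mul_le_self _ _

theorem pos_succ_le (x : ℕ → ℕ) (n : ℕ) : pos x (n + 1) ≤ n := by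
  have h1 : pos x (n + 1) ≤ ∑ d ∈ Finset.range (n + 1), ∑ m ∈ Finset.range (n + 1),
      ind (decide (2 ^ (2 ^ m) ≤ d) && decide (d % 2 ^ (2 ^ m) = x m)) * m := by
    unfold pos
    rw [nsum_eq]
    refine Finset.sum_le_sum fun d hd => ?_
    unfold len
    rw [nsum_eq]
    apply Finset.sum_le_sum_of_subset
    intro m hm
    rw [Finset.mem_range] at hm hd ⊢
    omega
  rw [Finset.sum_comm] at h1
  have h2 : ∀ m, ∑ d ∈ Finset.range (n + 1),
      ind (decide (2 ^ (2 ^ m) ≤ d) && decide (d % 2 ^ (2 ^ m) = x m)) * m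
      ≤ n / 2 ^ (2 ^ m) * m := by
    intro m
    rw [← Finset.sum_mul]
    refine Nat.mul_le_mul_right _ ?_
    rw [← nsum_eq, nsum_ind]
    refine le_trans (le_of_eq ?_) (count_le (x m) (2 ^ (2 ^ m)) n (by positivity))
    congr 1
    ext d
    simp only [Finset.mem_filter, Bool.and_eq_true, decide_eq_true_eq]
  have h3 : ∑ m ∈ Finset.range (n + 1), ∑ d ∈ Finset.range (n + 1),
      ind (decide (2 ^ (2 ^ m) ≤ d) && decide (d % 2 ^ (2 ^ m) = x m)) * m
      ≤ ∑ m ∈ Finset.range n, n / 2 ^ (m + 1) := by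
    rw [Finset.sum_range_succ']
    simp only [mul_zero, Finset.sum_const_zero, add_zero]
    refine Finset.sum_le_sum fun m _ => ?_
    exact (h2 (m + 1)).trans (mul_div_le n (m + 1))
  exact h1.trans (h3.trans ((Nat.le_add_right _ _).trans (half_sum n n)))

theorem le_len (x : ℕ → ℕ) (d m : ℕ) (h1 : 2 ^ (2 ^ m) ≤ d) (h2 : d % 2 ^ (2 ^ m) = x m) :
    m ≤ len x d := by
  unfold len
  rw [nsum_eq]
  have hm : m ∈ Finset.range (d + 1) := by
    rw [Finset.mem_range]
    have h3 : m < 2 ^ m := Nat.lt_two_pow_self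
    have h4 : 2 ^ m < 2 ^ (2 ^ m) := Nat.lt_two_pow_self
    omega
  refine le_trans ?_ (Finset.single_le_sum (f := fun m =>
    ind (decide (2 ^ (2 ^ m) ≤ d) && decide (d % 2 ^ (2 ^ m) = x m)) * m)
    (fun i _ => Nat.zero_le _) hm)
  rw [ind_true (by simp [h1, h2]), one_mul]

theorem clen {O : Set (ℕ →. ℕ)} {x : ℕ → ℕ} (hx : ComputableIn O x) : ComputableIn O (len x) := by
  have h0 : ComputableIn O fun p : ℕ × ℕ => 2 ^ (2 ^ p.2) :=
    cpw 2 (f := fun p : ℕ × ℕ => 2 ^ p.2) (cpw 2 (f := fun p : ℕ × ℕ => p.2) ci_snd)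
  have h1 : ComputableIn O fun p : ℕ × ℕ => x p.2 := ci_comp (f := x) hx ci_snd
  exact nsum_comp (g := fun d : ℕ => d + 1)
    (q := fun d m => ind (decide (2 ^ (2 ^ m) ≤ d) && decide (d % 2 ^ (2 ^ m) = x m)) * m)
    (cadd ComputableIn.id (cconst 1))
    (cmul (cind (cand (cle h0 ci_fst) (ceqN (cmod ci_fst h0) h1))) ci_snd)

theorem cpos {O : Set (ℕ →. ℕ)} {x : ℕ → ℕ} (hx : ComputableIn O x) : ComputableIn O (pos x) :=
  nsum_comp (g := fun d : ℕ => d) (q := fun _ d => len x d) ComputableIn.id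
    (ci_comp (f := len x) (clen hx) ci_snd)

/-! ### `B(∼₀) ⊆ B(≠*, 2^(2^n))` -/

theorem bsim_subset : BSim 0 ⊆ BNeq (fun n => 2 ^ (2 ^ n)) := by
  rintro A ⟨Y, hY, hYS⟩
  by_contra hA
  -- every bounded `A`-computable function is guessed infinitely often
  have hg : ∀ y : ℕ → ℕ, ComputableIn {orc A} y → (∀ n, y n < 2 ^ (2 ^ n)) →
      ∃ x : ℕ → ℕ, Computable x ∧ ∀ N, ∃ n, N ≤ n ∧ x n = y n := by
    intro y hy hyb
    by_contra hc
    apply hA
    refine ⟨y, hy, hyb, fun x hx => ?_⟩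
    rw [Filter.eventually_atTop]
    by_contra hc2
    apply hc
    refine ⟨x, hx, fun N => ?_⟩
    by_contra hc3
    apply hc2
    refine ⟨N, fun n hn hxy => hc3 ⟨n, hn, hxy⟩⟩
  have hf : ∀ i, ind (Y i) < 2 := by
    intro i
    cases Y i <;> simp [ind]
  -- first guess
  obtain ⟨y0, hy0⟩ : ∃ y0 : ℕ → ℕ, y0 = fun n => bsum (fun i => ind (Y i)) (2 ^ n) := ⟨_, rfl⟩
  have hy0c : ComputableIn {orc A} y0 := by
    rw [hy0]
    exact nsum_comp (g := fun n : ℕ => 2 ^ n) (q := fun (_ : ℕ) (i : ℕ) => ind (Y i) * 2 ^ i)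
      (cpw 2 (f := fun n : ℕ => n) ComputableIn.id)
      (cmul (cind (ci_comp (f := Y) hY ci_snd)) (cpw 2 (f := fun p : ℕ × ℕ => p.2) ci_snd))
  have hy0b : ∀ n, y0 n < 2 ^ (2 ^ n) := by
    intro n
    rw [hy0]
    exact bsum_lt hf _
  obtain ⟨x0, hx0, hx0y⟩ := hg y0 hy0c hy0b
  -- elements of `M`
  obtain ⟨F, hF, hF2⟩ := ci_search (O := {orc A})
    (q := fun a n => decide (a ≤ n) && decide (x0 n = y0 n))
    (cand (cle ci_fst ci_snd) (ceqN (ci_comp (f := x0) hx0.computableIn ci_snd)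
      (ci_comp (f := y0) hy0c ci_snd)))
    (by
      intro a
      obtain ⟨n, h1, h2⟩ := hx0y a
      exact ⟨n, by simp [h1, h2]⟩)
  simp only [Bool.and_eq_true, decide_eq_true_eq] at hF2
  -- second guess
  have hQ : ComputableIn {orc A} fun m : ℕ => 2 ^ (2 ^ m) :=
    cpw 2 (f := fun m : ℕ => 2 ^ m) (cpw 2 (f := fun m : ℕ => m) ComputableIn.id)
  obtain ⟨x1, hx1, hx1y⟩ := hg (fun m => F (2 ^ (2 ^ m)) % 2 ^ (2 ^ m))
    (cmod (ci_comp (f := F) hF hQ) hQ) (fun m => Nat.mod_lt _ (by positivity))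
  -- good pairs
  have key : ∀ N, ∃ m d, N ≤ m ∧ m ≤ len x1 d ∧ x0 d = y0 d := by
    intro N
    obtain ⟨m, hm, h1⟩ := hx1y N
    exact ⟨m, F (2 ^ (2 ^ m)), hm, le_len x1 _ m (hF2 _).1 h1.symm, (hF2 _).2⟩
  have hunb : ∀ j, ∃ d, j < pos x1 d := by
    intro j
    obtain ⟨m, d, h1, h2, -⟩ := key (j + 1)
    refine ⟨d + 1, ?_⟩
    rw [pos_succ]
    omega
  -- the interval containing an exponent
  obtain ⟨D, hD, hD2⟩ := search (α := ℕ)
    (q := fun j d => decide (pos x1 d ≤ j) && decide (j < pos x1 (d + 1)))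
    (by
      have h1 : ComputableIn ∅ (pos x1) := cpos hx1.computableIn
      have h2 : ComputableIn ∅ fun p : ℕ × ℕ =>
          decide (pos x1 p.2 ≤ p.1) && decide (p.1 < pos x1 (p.2 + 1)) :=
        cand (cle (ci_comp (f := pos x1) h1 ci_snd) ci_fst)
          (clt ci_fst (ci_comp (f := pos x1) h1 (cadd ci_snd (cconst 1))))
      exact computable_of_ci h2)
    (by
      classical
      intro j
      have h1 := Nat.find_spec (hunb j)
      have h2 := fun m => Nat.find_min (hunb j) (m := m)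
      obtain ⟨k, hk⟩ : ∃ k, k = Nat.find (hunb j) := ⟨_, rfl⟩
      rw [← hk] at h1 h2
      have hk0 : k ≠ 0 := by
        rintro rfl
        have : pos x1 0 = 0 := rfl
        omega
      refine ⟨k - 1, ?_⟩
      have h3 := h2 (k - 1) (by omega)
      have h4 : k - 1 + 1 = k := by omega
      rw [h4]
      simp only [Bool.and_eq_true, decide_eq_true_eq]
      omega)
  simp only [Bool.and_eq_true, decide_eq_true_eq] at hD2
  -- the computable set
  obtain ⟨S, hS⟩ : ∃ S : ℕ → Bool, S = fun i => decide (bt (x0 (D (lgb 2 i))) i = 0) := ⟨_, rfl⟩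
  have hSc : Computable S := by
    apply computable_of_ci
    have hl : ComputableIn ∅ fun i : ℕ => x0 (D (lgb 2 i)) :=
      ci_comp (f := x0) hx0.computableIn (ci_comp (f := D) hD.computableIn
        (clgb 2 (f := fun t : ℕ => t) ComputableIn.id))
    rw [hS]
    exact ceqN (cbt hl (g := fun i : ℕ => i) ComputableIn.id) (cconst 0)
  have hden := hYS S hSc
  refine absurd hden (not_lt.2 ?_)
  unfold lowerDens
  apply liminf_le_zero
  · intro n
    positivity
  intro ε hε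
  obtain ⟨K, hK⟩ := exists_nat_gt (1 / ε)
  rw [Filter.frequently_atTop]
  intro N
  obtain ⟨m, d, hm, hlen, hd⟩ := key (N + K + 1)
  refine ⟨2 ^ pos x1 (d + 1), ?_, ?_⟩
  · have h1 : N < 2 ^ N := Nat.lt_two_pow_self
    have h2 : 2 ^ N ≤ 2 ^ pos x1 (d + 1) := by
      apply Nat.pow_le_pow_right (by norm_num)
      rw [pos_succ]
      omega
    exact (h1.le.trans h2)
  -- the agreement up to `2 ^ pos x1 (d + 1)`
  have hag : agree S Y (2 ^ pos x1 (d + 1)) ≤ 2 ^ pos x1 d := by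
    unfold agree
    have : (Finset.range (2 ^ pos x1 (d + 1))).filter (fun i => S i = Y i)
        ⊆ Finset.range (2 ^ pos x1 d) := by
      intro i hi
      rw [Finset.mem_filter, Finset.mem_range] at hi
      rw [Finset.mem_range]
      by_contra hc
      push Not at hc
      obtain ⟨j, hj⟩ : ∃ j, j = Nat.log 2 i := ⟨_, rfl⟩
      have hi0 : i ≠ 0 := by
        have : 0 < 2 ^ pos x1 d := by positivity
        omega
      have hj1 : 2 ^ j ≤ i := by rw [hj]; exact Nat.pow_log_le_self 2 hi0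
      have hj2 : i < 2 ^ (j + 1) := by rw [hj]; exact Nat.lt_pow_succ_log_self (by norm_num) i
      have hlg : lgb 2 i = j := lgb_eq le_rfl hj1 hj2
      have hj3 : pos x1 d ≤ j := by
        by_contra h
        have : 2 ^ (j + 1) ≤ 2 ^ pos x1 d := Nat.pow_le_pow_right (by norm_num) (by omega)
        omega
      have hj4 : j < pos x1 (d + 1) := by
        by_contra h
        have : 2 ^ pos x1 (d + 1) ≤ 2 ^ j := Nat.pow_le_pow_right (by norm_num) (by omega)
        omega
      have hDj : D j = d := by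
        have h5 := hD2 j
        rcases Nat.lt_trichotomy (D j) d with h | h | h
        · have := pos_mono x1 (show D j + 1 ≤ d from h)
          omega
        · exact h
        · have := pos_mono x1 (show d + 1 ≤ D j from h)
          omega
      have hid : i < 2 ^ d := lt_of_lt_of_le hi.1
        (Nat.pow_le_pow_right (by norm_num) (pos_succ_le x1 d))
      have h6 := hi.2
      rw [hS] at h6
      simp only [hlg, hDj] at h6
      rw [hd, hy0] at h6
      simp only at h6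
      rw [bt_bsum hf _ _ hid] at h6
      cases hYi : Y i <;> simp [hYi, ind] at h6
    exact (Finset.card_le_card this).trans (Finset.card_range _).le
  have hpow : (2 : ℝ) ^ pos x1 (d + 1) = 2 ^ len x1 d * 2 ^ pos x1 d := by
    rw [pos_succ, pow_add, mul_comm]
  have hpos : (0 : ℝ) < 2 ^ pos x1 d := by positivity
  have h3 : (agree S Y (2 ^ pos x1 (d + 1)) : ℝ) ≤ 2 ^ pos x1 d := by exact_mod_cast hag
  have hKn : (K : ℝ) ≤ 2 ^ len x1 d := by
    have : K ≤ 2 ^ len x1 d := by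
      have h1 : len x1 d < 2 ^ len x1 d := Nat.lt_two_pow_self
      omega
    exact_mod_cast this
  have h4 : 1 / ε < 2 ^ len x1 d := lt_of_lt_of_le hK hKn
  rw [div_lt_iff₀ hε] at h4
  push_cast
  rw [hpow, div_le_iff₀ (by positivity)]
  calc (agree S Y (2 ^ pos x1 (d + 1)) : ℝ)
      ≤ 1 * 2 ^ pos x1 d := by rw [one_mul]; exact h3
    _ ≤ (2 ^ len x1 d * ε) * 2 ^ pos x1 d := mul_le_mul_of_nonneg_right h4.le hpos.le
    _ = ε * (2 ^ len x1 d * 2 ^ pos x1 d) := by ring

/-! ### `B(≠*, 2^(2^n)) ⊆ B(∼₀)` -/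

/-- the set coding `y` by the codes `E` -/
def enc (E y : ℕ → ℕ) (t : ℕ) : Bool :=
  decide (cw (E (lgb 2 t - 6)) (64 * 2 ^ (lgb 2 t - 6)) (y (lgb 2 t - 6))
    (t - 64 * 2 ^ (lgb 2 t - 6)) = 1)

/-- decoding the complement of `X` -/
def dec (E : ℕ → ℕ) (X : ℕ → Bool) (n : ℕ) : ℕ :=
  nsum (2 ^ (2 ^ n)) fun a => ind (decide (dd (cw (E n) (64 * 2 ^ n) a)
    (fun i => ind (!(X (64 * 2 ^ n + i)))) (64 * 2 ^ n) ≤ 2 ^ n)) * a

theorem cenc {O : Set (ℕ →. ℕ)} {E y : ℕ → ℕ} (hE : ComputableIn O E) (hy : ComputableIn O y) :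
    ComputableIn O (enc E y) := by
  have hl : ComputableIn O fun t : ℕ => lgb 2 t - 6 :=
    csub (clgb 2 (f := fun t : ℕ => t) ComputableIn.id) (cconst 6)
  have hl2 : ComputableIn O fun t : ℕ => 64 * 2 ^ (lgb 2 t - 6) :=
    cmul (cconst 64) (cpw 2 (f := fun t : ℕ => lgb 2 t - 6) hl)
  exact ceqN (ccw (ci_comp (f := E) hE hl) hl2
    (ci_comp (f := y) hy hl) (csub ComputableIn.id hl2)) (cconst 1)

theorem cdec {O : Set (ℕ →. ℕ)} {E : ℕ → ℕ} {X : ℕ → Bool} (hE : ComputableIn O E)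
    (hX : ComputableIn O X) : ComputableIn O (dec E X) := by
  have hNc : ComputableIn O fun n : ℕ => 64 * 2 ^ n :=
    cmul (cconst 64) (cpw 2 (f := fun n : ℕ => n) ComputableIn.id)
  have hN1 : ComputableIn O fun p : ℕ × ℕ => 64 * 2 ^ p.1 :=
    ci_comp (f := fun n : ℕ => 64 * 2 ^ n) hNc ci_fst
  have hN2 : ComputableIn O fun p : (ℕ × ℕ) × ℕ => 64 * 2 ^ p.1.1 :=
    ci_comp (f := fun p : ℕ × ℕ => 64 * 2 ^ p.1) hN1 ci_fst
  have hwc : ComputableIn O fun p : ℕ × ℕ => ind (!(X (64 * 2 ^ p.1 + p.2))) :=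
    cind (cnot (ci_comp (f := X) hX (cadd hN1 ci_snd)))
  have h1 : ComputableIn O fun p : (ℕ × ℕ) × ℕ =>
      cw (E p.1.1) (64 * 2 ^ p.1.1) p.1.2 p.2 :=
    ccw (ci_comp (f := E) hE (ci_comp ci_fst ci_fst)) hN2 (ci_comp ci_snd ci_fst) ci_snd
  have h2 : ComputableIn O fun p : (ℕ × ℕ) × ℕ => ind (!(X (64 * 2 ^ p.1.1 + p.2))) :=
    ci_comp (f := fun p : ℕ × ℕ => ind (!(X (64 * 2 ^ p.1 + p.2))))
      (g := fun p : (ℕ × ℕ) × ℕ => (p.1.1, p.2)) hwc
      (ci_pair (ci_comp ci_fst ci_fst) ci_snd)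
  have h3 : ComputableIn O fun p : ℕ × ℕ =>
      dd (cw (E p.1) (64 * 2 ^ p.1) p.2) (fun i => ind (!(X (64 * 2 ^ p.1 + i))))
        (64 * 2 ^ p.1) :=
    cdd (f := fun p : ℕ × ℕ => cw (E p.1) (64 * 2 ^ p.1) p.2)
      (g := fun (p : ℕ × ℕ) (i : ℕ) => ind (!(X (64 * 2 ^ p.1 + i)))) h1 h2 hN1
  have h4 : ComputableIn O fun p : ℕ × ℕ => 2 ^ p.1 :=
    cpw 2 (f := fun p : ℕ × ℕ => p.1) ci_fst
  have h5 : ComputableIn O fun n : ℕ => 2 ^ (2 ^ n) :=
    cpw 2 (f := fun n : ℕ => 2 ^ n) (cpw 2 (f := fun n : ℕ => n) ComputableIn.id)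
  exact nsum_comp (g := fun n : ℕ => 2 ^ (2 ^ n)) (q := fun n a =>
    ind (decide (dd (cw (E n) (64 * 2 ^ n) a) (fun i => ind (!(X (64 * 2 ^ n + i))))
      (64 * 2 ^ n) ≤ 2 ^ n)) * a) h5
    (cmul (cind (cle h3 h4)) ci_snd)

/-- If the code of `y` agrees with `X` rarely, then `y` is decoded infinitely often. -/
theorem decode {E y : ℕ → ℕ} {X : ℕ → Bool} (hgood : ∀ n, ∀ a < 2 ^ (2 ^ n), ∀ b < a,
      2 * 2 ^ n < dd (cw (E n) (64 * 2 ^ n) a) (cw (E n) (64 * 2 ^ n) b) (64 * 2 ^ n))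
    (hyb : ∀ n, y n < 2 ^ (2 ^ n))
    (hden : lowerDens X (enc E y) < 1 / 256) :
    ∀ n0, ∃ n, n0 ≤ n ∧ dec E X n = y n := by
  obtain ⟨S, hS⟩ : ∃ S : ℕ → Bool, S = enc E y := ⟨_, rfl⟩
  rw [← hS] at hden
  unfold lowerDens at hden
  have hfr : ∃ᶠ T : ℕ in Filter.atTop, (agree X S T : ℝ) / T < 1 / 256 := by
    apply Filter.frequently_lt_of_liminf_lt
    · exact Filter.isCoboundedUnder_ge_of_le _ (x := 1) (fun T => by
        apply div_le_one_of_le₀ _ (Nat.cast_nonneg T)
        have : agree X S T ≤ T := by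
          unfold agree
          exact (Finset.card_filter_le _ _).trans (Finset.card_range _).le
        exact_mod_cast this)
    · exact hden
  rw [Filter.frequently_atTop] at hfr
  intro n0
  obtain ⟨T, hT, hTlt⟩ := hfr (2 ^ (n0 + 7))
  obtain ⟨k, hk⟩ : ∃ k, k = Nat.log 2 T := ⟨_, rfl⟩
  have hT0 : T ≠ 0 := by
    have : 0 < 2 ^ (n0 + 7) := by positivity
    omega
  have hk1 : 2 ^ k ≤ T := by rw [hk]; exact Nat.pow_log_le_self 2 hT0
  have hk2 : T < 2 ^ (k + 1) := by rw [hk]; exact Nat.lt_pow_succ_log_self (by norm_num) T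
  have hk3 : n0 + 7 ≤ k := by
    rw [hk]
    exact Nat.le_log_of_pow_le (by norm_num) hT
  obtain ⟨n, hn⟩ : ∃ n, k = n + 7 := ⟨k - 7, by omega⟩
  have e64 : 64 * 2 ^ n = 2 ^ (n + 6) := by ring
  refine ⟨n, by omega, ?_⟩
  -- few errors
  have hag : agree X S T < 2 ^ n := by
    have hTpos : (0 : ℝ) < T := by exact_mod_cast Nat.pos_of_ne_zero hT0
    rw [div_lt_iff₀ hTpos] at hTlt
    have h1 : (T : ℝ) < 2 ^ (n + 8) := by
      have : T < 2 ^ (n + 8) := by
        rw [hn] at hk2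
        exact hk2
      exact_mod_cast this
    have h2 : (2 : ℝ) ^ (n + 8) = 256 * 2 ^ n := by ring
    have h3 : (agree X S T : ℝ) < 2 ^ n := by
      rw [h2] at h1
      linarith
    exact_mod_cast h3
  have hSblock : ∀ i < 64 * 2 ^ n, ind (S (64 * 2 ^ n + i))
      = cw (E n) (64 * 2 ^ n) (y n) i := by
    intro i hi
    have h1 : lgb 2 (64 * 2 ^ n + i) = n + 6 := by
      apply lgb_eq le_rfl
      · omega
      · rw [pow_succ 2 (n + 6)]
        omega
    rw [hS]
    unfold enc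
    simp only [h1, Nat.add_sub_cancel, Nat.add_sub_cancel_left]
    have h2 : cw (E n) (64 * 2 ^ n) (y n) i < 2 := bt_lt _ _
    by_cases h3 : cw (E n) (64 * 2 ^ n) (y n) i = 1
    · rw [h3]
      rfl
    · have h4 : cw (E n) (64 * 2 ^ n) (y n) i = 0 := by omega
      rw [h4]
      rfl
  obtain ⟨w, hw⟩ : ∃ w : ℕ → ℕ, w = fun i => ind (!(X (64 * 2 ^ n + i))) := ⟨_, rfl⟩
  have hdist : dd (cw (E n) (64 * 2 ^ n) (y n)) w (64 * 2 ^ n) ≤ 2 ^ n := by
    refine le_trans ?_ hag.le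
    unfold dd agree
    rw [nsum_ind]
    apply Finset.card_le_card_of_injOn (fun i => 64 * 2 ^ n + i)
    · intro i hi
      rw [Finset.mem_coe, Finset.mem_filter, Finset.mem_range] at hi
      rw [Finset.mem_coe, Finset.mem_filter, Finset.mem_range]
      constructor
      · have h1 : 2 ^ (n + 7) ≤ T := by rw [← hn]; exact hk1
        have h2 : 2 ^ (n + 7) = 64 * 2 ^ n + 64 * 2 ^ n := by ring
        show 64 * 2 ^ n + i < T
        omega
      · have h1 := hi.2
        rw [← hSblock i hi.1, hw] at h1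
        simp only [Bool.not_eq_true', decide_eq_false_iff_not] at h1
        cases hX1 : X (64 * 2 ^ n + i) <;> cases hS1 : S (64 * 2 ^ n + i) <;>
          simp [hX1, hS1, ind] at h1 ⊢
    · intro i _ i' _ h
      simpa using h
  -- decoding
  unfold dec
  rw [nsum_eq, Finset.sum_eq_single (y n)]
  · rw [← hw, ind_true (by simpa using hdist), one_mul]
  · intro a ha hne
    rw [ind_false, zero_mul]
    rw [decide_eq_false_iff_not, ← hw]
    intro hc
    have h1 := dd_tri (cw (E n) (64 * 2 ^ n) a) w (cw (E n) (64 * 2 ^ n) (y n)) (64 * 2 ^ n)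
    rw [dd_comm w] at h1
    rcases Nat.lt_or_gt_of_ne hne with h | h
    · have h2 := hgood n (y n) (hyb n) a h
      rw [dd_comm] at h2
      omega
    · have h2 := hgood n a (Finset.mem_range.1 ha) (y n) h
      omega
  · intro h
    exact absurd (Finset.mem_range.2 (hyb n)) h

theorem bneq_subset : BNeq (fun n => 2 ^ (2 ^ n)) ⊆ BSim 0 := by
  rintro A ⟨y, hy, hyb, hyx⟩
  obtain ⟨E, hE, hgood⟩ := exists_codes
  refine ⟨enc E y, cenc hE.computableIn hy, fun S hS => ?_⟩
  by_contra hc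
  have hden : lowerDens S (enc E y) < 1 / 256 := lt_of_le_of_lt (not_lt.1 hc) (by norm_num)
  have hdec := decode hgood hyb hden
  have hd : Computable (dec E S) :=
    computable_of_ci (cdec hE.computableIn hS.computableIn)
  have h1 := hyx _ hd
  rw [Filter.eventually_atTop] at h1
  obtain ⟨N, hN⟩ := h1
  obtain ⟨n, hn, h2⟩ := hdec N
  exact hN n hn h2

/-- **Answer to Q1 (negative).** `B(≠*, 2^(2^n))` is not a proper subclass of `B(∼₀)`: the two
classes are equal. -/
theorem result : BNeq (fun n => 2 ^ (2 ^ n)) = BSim 0 :=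
  Set.Subset.antisymm bneq_subset bsim_subset

end Pool.Agent.Results.MP_738f0f_lc.Equality
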